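import Mathlib

set_option autoImplicit false

/-! Blocks without three-term progressions (Behrend), placed at very sparse scales. -/

namespace Pool.Agent.X186.CHG

open Finset

lemma roth_pow (j : ℕ) : 2 ^ (j ^ 2 - 5 * j) ≤ rothNumberNat (2 ^ (j ^ 2)) := by
  by_cases hj : j ≤ 5
  · have : j ^ 2 - 5 * j = 0 := by
      have : j ^ 2 ≤ 5 * j := by nlinarith
      omega
    rw [this, pow_zero]
    have h1 : rothNumberNat 1 ≤ rothNumberNat (2 ^ (j ^ 2)) :=
      rothNumberNat.monotone Nat.one_le_two_pow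
    refine le_trans ?_ h1
    have : ThreeAPFree ((({0} : Finset ℕ) : Set ℕ)) := by simp
    exact this.le_rothNumberNat {0} (by simp) (by simp)
  · push Not at hj
    have hb := Behrend.roth_lower_bound (N := 2 ^ (j ^ 2))
    have hlog : Real.log ((2 ^ (j ^ 2) : ℕ) : ℝ) = (j : ℝ) ^ 2 * Real.log 2 := by
      push_cast
      rw [Real.log_pow]
      push_cast
      ring
    have hl2 : (0.6931471803 : ℝ) < Real.log 2 := Real.log_two_gt_d9
    have hsq : √(Real.log ((2 ^ (j ^ 2) : ℕ) : ℝ)) = j * √(Real.log 2) := by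
      rw [hlog, Real.sqrt_mul (by positivity), Real.sqrt_sq (by positivity)]
    have h4 : 4 * √(Real.log 2) ≤ 5 * Real.log 2 := by
      have : √(Real.log 2) ≤ 5 / 4 * Real.log 2 := by
        rw [Real.sqrt_le_left (by positivity)]
        nlinarith
      linarith
    have hexp : (2 : ℝ) ^ (-(5 * j : ℝ)) ≤ Real.exp (-4 * √(Real.log ((2 ^ (j ^ 2) : ℕ) : ℝ))) := by
      rw [hsq, Real.rpow_def_of_pos (by norm_num)]
      apply Real.exp_le_exp.2
      have : (0 : ℝ) ≤ j := by positivity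
      nlinarith
    have hfin : ((2 ^ (j ^ 2 - 5 * j) : ℕ) : ℝ) ≤ (rothNumberNat (2 ^ (j ^ 2)) : ℝ) := by
      refine le_trans ?_ hb
      have hle : 5 * j ≤ j ^ 2 := by nlinarith
      calc ((2 ^ (j ^ 2 - 5 * j) : ℕ) : ℝ) = (2 : ℝ) ^ ((j ^ 2 - 5 * j : ℕ) : ℝ) := by
            push_cast [Real.rpow_natCast]
            rfl
        _ = ((2 ^ (j ^ 2) : ℕ) : ℝ) * (2 : ℝ) ^ (-(5 * j : ℝ)) := by
            rw [Nat.cast_sub hle]
            push_cast
            rw [sub_eq_add_neg, Real.rpow_add (by norm_num)]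
            congr 1
            have : ((j : ℝ) ^ 2) = ((j ^ 2 : ℕ) : ℝ) := by push_cast; ring
            rw [this, Real.rpow_natCast]
        _ ≤ _ := mul_le_mul_of_nonneg_left hexp (by positivity)
    exact_mod_cast hfin

lemma exists_block (j : ℕ) : ∃ B : Finset ℤ, B.card = 2 ^ (j ^ 2 - 5 * j) ∧
    (∀ y ∈ B, 2 * 2 ^ (j ^ 2) ≤ y ∧ y < 3 * 2 ^ (j ^ 2)) ∧
    ∀ a ∈ B, ∀ b ∈ B, ∀ c ∈ B, a + c = b + b → a = b := by
  obtain ⟨t, ht, htc, htf⟩ := rothNumberNat_spec (2 ^ (j ^ 2))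
  obtain ⟨u, hu, huc⟩ := exists_subset_card_eq (s := t) (n := 2 ^ (j ^ 2 - 5 * j)) (by
    rw [htc]; exact roth_pow j)
  have hinj : Function.Injective (fun n : ℕ => (2 * 2 ^ (j ^ 2) + n : ℤ)) := fun a b h => by
    simpa using h
  refine ⟨u.image (fun n : ℕ => (2 * 2 ^ (j ^ 2) + n : ℤ)), ?_, ?_, ?_⟩
  · rw [card_image_of_injective _ hinj, huc]
  · intro y hy
    obtain ⟨n, hn, rfl⟩ := mem_image.1 hy
    have h1 : n < 2 ^ (j ^ 2) := mem_range.1 (ht (hu hn))
    have h2 : (n : ℤ) < 2 ^ (j ^ 2) := by exact_mod_cast h1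
    constructor
    · have : (0 : ℤ) ≤ n := by positivity
      linarith
    · linarith
  · intro a ha b hb c hc h
    obtain ⟨n1, hn1, rfl⟩ := mem_image.1 ha
    obtain ⟨n2, hn2, rfl⟩ := mem_image.1 hb
    obtain ⟨n3, hn3, rfl⟩ := mem_image.1 hc
    have h' : n1 + n3 = n2 + n2 := by
      have : (n1 : ℤ) + n3 = n2 + n2 := by linarith
      exact_mod_cast this
    have := htf (hu hn1) (hu hn2) (hu hn3) h'
    rw [this]

lemma scale {i j : ℕ} (hi : 1 ≤ i) (hij : i < j) : (8 : ℤ) * 2 ^ (i ^ 2) ≤ 2 ^ (j ^ 2) := by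
  have h1 : i ^ 2 + 3 ≤ j ^ 2 := by nlinarith
  calc (8 : ℤ) * 2 ^ (i ^ 2) = 2 ^ (i ^ 2 + 3) := by rw [pow_add]; ring
    _ ≤ 2 ^ (j ^ 2) := pow_le_pow_right₀ (by norm_num) h1

/-- the blocks together contain no three-term progression -/
lemma blocks_free {B : ℕ → Finset ℤ}
    (hB : ∀ j, ∀ y ∈ B j, 2 * 2 ^ (j ^ 2) ≤ y ∧ y < 3 * 2 ^ (j ^ 2))
    (hf : ∀ j, ∀ a ∈ B j, ∀ b ∈ B j, ∀ c ∈ B j, a + c = b + b → a = b)
    {i j k : ℕ} (hi : 1 ≤ i) (hj : 1 ≤ j) (hk : 1 ≤ k) {a b c : ℤ} (ha : a ∈ B i)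
    (hb : b ∈ B j) (hc : c ∈ B k) (h : a + c = b + b) : a = b := by
  have key : ∀ {i j k : ℕ} (_ : 1 ≤ i) (_ : 1 ≤ j) (_ : 1 ≤ k) {a b c : ℤ} (_ : a ∈ B i)
      (_ : b ∈ B j) (_ : c ∈ B k) (_ : a + c = b + b) (_ : a ≤ c), a = b := by
    intro i j k hi hj hk a b c ha hb hc h hac
    have a1 := hB i a ha
    have b1 := hB j b hb
    have c1 := hB k c hc
    have hM : ∀ n : ℕ, (0 : ℤ) < 2 ^ (n ^ 2) := fun n => by positivity
    have hMi := hM i
    have hMj := hM j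
    have hMk := hM k
    have hjk : j = k := by
      rcases lt_trichotomy j k with h' | h' | h'
      · have := scale hj h'
        linarith
      · exact h'
      · have := scale hk h'
        linarith
    subst hjk
    have hij : i = j := by
      rcases lt_trichotomy i j with h' | h' | h'
      · have := scale hi h'
        linarith
      · exact h'
      · have := scale hj h'
        linarith
    subst hij
    exact hf i a ha b hb c hc h
  rcases le_total a c with hac | hac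
  · exact key hi hj hk ha hb hc h hac
  · have := key hk hj hi hc hb ha (by linarith) hac
    linarith

lemma blocks_disj {B : ℕ → Finset ℤ}
    (hB : ∀ j, ∀ y ∈ B j, 2 * 2 ^ (j ^ 2) ≤ y ∧ y < 3 * 2 ^ (j ^ 2))
    {i j : ℕ} (hi : 1 ≤ i) (hj : 1 ≤ j) {y : ℤ} (h1 : y ∈ B i) (h2 : y ∈ B j) : i = j := by
  have a1 := hB i y h1
  have a2 := hB j y h2
  have hMi : (0 : ℤ) < 2 ^ (i ^ 2) := by positivity
  have hMj : (0 : ℤ) < 2 ^ (j ^ 2) := by positivity
  rcases lt_trichotomy i j with h' | h' | h'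
  · have := scale hi h'
    linarith
  · exact h'
  · have := scale hj h'
    linarith

end Pool.Agent.X186.CHG
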