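import Mathlib

set_option autoImplicit false

/-! Weighted number of the configurations: a bound at all scales simultaneously. -/

namespace Pool.Agent.X186.CHG

open Finset

lemma sum_inv_le (N : ℕ) : ∑ x ∈ Icc 1 N, ((x : ℝ))⁻¹ ≤ 1 + Real.log N := by
  have h := harmonic_le_one_add_log N
  rw [harmonic_eq_sum_Icc] at h
  push_cast at h
  exact h

/-- the sums of a configuration -/
def sm {m g : ℕ} (k : Fin g → ℕ) (x : Fin m → ℕ) (i : Fin (m + 1)) (j : Fin g) : ℕ :=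
  (Fin.cons 0 x : Fin (m + 1) → ℕ) i + k j

lemma sm_zero {m g : ℕ} (k : Fin g → ℕ) (x : Fin m → ℕ) (j : Fin g) : sm k x 0 j = k j := by
  simp [sm]

lemma sm_succ {m g : ℕ} (k : Fin g → ℕ) (x : Fin m → ℕ) (i : Fin m) (j : Fin g) :
    sm k x i.succ j = x i + k j := by
  simp [sm]

lemma two_rpow_bound {g : ℕ} (hg : 0 < g) {γ : ℝ} (hγ : 1 ≤ γ * g) (x k : ℕ) (hx : 1 ≤ x)
    (hk : 1 ≤ k) :
    ((x + k : ℕ) : ℝ) ^ (-γ) ≤ (x : ℝ) ^ (-(1 / (g : ℝ))) * (k : ℝ) ^ (-(γ - 1 / (g : ℝ))) := by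
  have hg' : (0 : ℝ) < g := by exact_mod_cast hg
  have hx' : (0 : ℝ) < x := by exact_mod_cast hx
  have hk' : (0 : ℝ) < k := by exact_mod_cast hk
  have hγ' : 0 ≤ γ - 1 / (g : ℝ) := by
    rw [sub_nonneg, div_le_iff₀ hg']; exact hγ
  have e : -γ = -(1 / (g : ℝ)) + -(γ - 1 / (g : ℝ)) := by ring
  have hs : (0 : ℝ) < ((x + k : ℕ) : ℝ) := by positivity
  rw [e, Real.rpow_add hs]
  apply mul_le_mul
  · apply Real.rpow_le_rpow_of_nonpos hx'
    · push_cast; linarith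
    · have : (0 : ℝ) ≤ 1 / (g : ℝ) := by positivity
      linarith
  · apply Real.rpow_le_rpow_of_nonpos hk'
    · push_cast; linarith
    · linarith
  · positivity
  · positivity

lemma weight {m g N : ℕ} (hg : 0 < g) (hN : 1 ≤ N) (γ C : ℝ) (hC : 0 ≤ C) (hγ : 1 ≤ γ * g)
    (hτ : (m + 1) * γ - m / g ≤ 1)
    (p : ℤ → ℝ) (hp0 : ∀ y, 0 ≤ p y)
    (hp : ∀ y : ℕ, 1 ≤ y → y ≤ N → p y ≤ C * (y : ℝ) ^ (-γ)) :
    ∑ k ∈ Fintype.piFinset (fun _ : Fin g => Icc 1 N),
      ∑ x ∈ Fintype.piFinset (fun _ : Fin m => Icc 1 N),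
        (if ∀ i j, sm k x i j ≤ N then ∏ i, ∏ j, p (sm k x i j) else 0)
      ≤ C ^ ((m + 1) * g) * (1 + Real.log N) ^ (m + g) *
        (N : ℝ) ^ ((g + m : ℝ) - (m + 1) * g * γ) := by
  have hg' : (0 : ℝ) < g := by exact_mod_cast hg
  have hN' : (0 : ℝ) < N := by exact_mod_cast hN
  set τ : ℝ := (m + 1) * γ - m / g with hτdef
  have hlog : 0 ≤ Real.log N := Real.log_natCast_nonneg N
  -- termwise bound
  have hterm : ∀ k ∈ Fintype.piFinset (fun _ : Fin g => Icc 1 N),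
      ∀ x ∈ Fintype.piFinset (fun _ : Fin m => Icc 1 N),
        (if ∀ i j, sm k x i j ≤ N then ∏ i, ∏ j, p (sm k x i j) else 0)
          ≤ C ^ ((m + 1) * g) * ((∏ j, (k j : ℝ) ^ (-τ)) * ∏ i, ((x i : ℝ))⁻¹) := by
    intro k hk x hx
    rw [Fintype.mem_piFinset] at hk hx
    have hk1 : ∀ j, 1 ≤ k j := fun j => (mem_Icc.1 (hk j)).1
    have hx1 : ∀ i, 1 ≤ x i := fun i => (mem_Icc.1 (hx i)).1
    split_ifs with hcond
    · rw [Fin.prod_univ_succ]
      have h1 : ∏ j, p (sm k x 0 j) ≤ ∏ j : Fin g, (C * (k j : ℝ) ^ (-γ)) := by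
        apply prod_le_prod (fun j _ => hp0 _)
        intro j _
        have := hcond 0 j
        rw [sm_zero] at this ⊢
        exact hp _ (hk1 j) this
      have h2 : ∏ i : Fin m, ∏ j, p (sm k x i.succ j) ≤
          ∏ i : Fin m, ∏ j : Fin g, (C * ((x i : ℝ) ^ (-(1 / (g : ℝ))) *
            (k j : ℝ) ^ (-(γ - 1 / (g : ℝ))))) := by
        apply prod_le_prod (fun i _ => prod_nonneg fun j _ => hp0 _)
        intro i _
        apply prod_le_prod (fun j _ => hp0 _)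
        intro j _
        have hc := hcond i.succ j
        rw [sm_succ] at hc ⊢
        refine (hp _ (by have := hk1 j; omega) hc).trans ?_
        exact mul_le_mul_of_nonneg_left (two_rpow_bound hg hγ _ _ (hx1 i) (hk1 j)) hC
      refine (mul_le_mul h1 h2 (prod_nonneg fun i _ => prod_nonneg fun j _ => hp0 _)
        (prod_nonneg fun j _ => by positivity)).trans (le_of_eq ?_)
      have e1 : ∏ j : Fin g, (C * (k j : ℝ) ^ (-γ)) = C ^ g * ∏ j, (k j : ℝ) ^ (-γ) := by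
        rw [prod_mul_distrib, prod_const, card_univ, Fintype.card_fin]
      have e2 : ∀ i : Fin m, ∏ j : Fin g, (C * ((x i : ℝ) ^ (-(1 / (g : ℝ))) *
            (k j : ℝ) ^ (-(γ - 1 / (g : ℝ)))))
          = C ^ g * ((x i : ℝ)⁻¹ * ∏ j, (k j : ℝ) ^ (-(γ - 1 / (g : ℝ)))) := by
        intro i
        rw [prod_mul_distrib, prod_const, card_univ, Fintype.card_fin, prod_mul_distrib,
          prod_const, card_univ, Fintype.card_fin]
        congr 2
        have hxi : (0 : ℝ) < x i := by exact_mod_cast hx1 i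
        rw [← Real.rpow_natCast, ← Real.rpow_mul hxi.le]
        have : -(1 / (g : ℝ)) * (g : ℝ) = -1 := by field_simp
        rw [this, Real.rpow_neg_one]
      rw [e1, prod_congr rfl fun i _ => e2 i, prod_mul_distrib, prod_const, card_univ,
        Fintype.card_fin, prod_mul_distrib, prod_const, card_univ, Fintype.card_fin]
      have e3 : (∏ j, (k j : ℝ) ^ (-γ)) * (∏ j, (k j : ℝ) ^ (-(γ - 1 / (g : ℝ)))) ^ m
          = ∏ j, (k j : ℝ) ^ (-τ) := by
        rw [← prod_pow, ← prod_mul_distrib]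
        apply prod_congr rfl
        intro j _
        have hkj : (0 : ℝ) < k j := by exact_mod_cast hk1 j
        rw [← Real.rpow_natCast, ← Real.rpow_mul hkj.le, ← Real.rpow_add hkj]
        congr 1
        rw [hτdef]
        field_simp
        ring
      rw [← e3]
      ring
    · have : ∀ j, (0 : ℝ) ≤ (k j : ℝ) ^ (-τ) := fun j => by positivity
      have h3 : 0 ≤ ∏ j, (k j : ℝ) ^ (-τ) := prod_nonneg fun j _ => this j
      have h4 : (0 : ℝ) ≤ ∏ i, ((x i : ℝ))⁻¹ := prod_nonneg fun i _ => by positivity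
      positivity
  have hsum1 : ∑ k ∈ Fintype.piFinset (fun _ : Fin g => Icc 1 N), ∏ j, (k j : ℝ) ^ (-τ)
      = (∑ a ∈ Icc 1 N, (a : ℝ) ^ (-τ)) ^ g := by
    have := prod_univ_sum (fun _ : Fin g => Icc 1 N) (fun _ a => (a : ℝ) ^ (-τ))
    rw [← this, prod_const, card_univ, Fintype.card_fin]
  have hsum2 : ∑ x ∈ Fintype.piFinset (fun _ : Fin m => Icc 1 N), ∏ i, ((x i : ℝ))⁻¹
      = (∑ a ∈ Icc 1 N, ((a : ℝ))⁻¹) ^ m := by
    have := prod_univ_sum (fun _ : Fin m => Icc 1 N) (fun _ a => ((a : ℝ))⁻¹)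
    rw [← this, prod_const, card_univ, Fintype.card_fin]
  have hb1 : ∑ a ∈ Icc 1 N, (a : ℝ) ^ (-τ) ≤ (N : ℝ) ^ (1 - τ) * (1 + Real.log N) := by
    refine le_trans ?_ (mul_le_mul_of_nonneg_left (sum_inv_le N) (by positivity))
    rw [mul_sum]
    apply sum_le_sum
    intro a ha
    have ha1 := (mem_Icc.1 ha).1
    have ha2 := (mem_Icc.1 ha).2
    have ha0 : (0 : ℝ) < a := by exact_mod_cast ha1
    have e : -τ = (1 - τ) + (-1) := by ring
    rw [e, Real.rpow_add ha0, Real.rpow_neg_one]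
    apply mul_le_mul_of_nonneg_right _ (by positivity)
    apply Real.rpow_le_rpow ha0.le (by exact_mod_cast ha2)
    linarith
  have hb2 := sum_inv_le N
  have hs0 : 0 ≤ ∑ a ∈ Icc 1 N, (a : ℝ) ^ (-τ) := sum_nonneg fun a _ => by positivity
  have hs1 : 0 ≤ ∑ a ∈ Icc 1 N, ((a : ℝ))⁻¹ := sum_nonneg fun a _ => by positivity
  calc _ ≤ ∑ k ∈ Fintype.piFinset (fun _ : Fin g => Icc 1 N),
        ∑ x ∈ Fintype.piFinset (fun _ : Fin m => Icc 1 N),
          C ^ ((m + 1) * g) * ((∏ j, (k j : ℝ) ^ (-τ)) * ∏ i, ((x i : ℝ))⁻¹) :=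
        sum_le_sum fun k hk => sum_le_sum fun x hx => hterm k hk x hx
    _ = C ^ ((m + 1) * g) * ((∑ a ∈ Icc 1 N, (a : ℝ) ^ (-τ)) ^ g *
          (∑ a ∈ Icc 1 N, ((a : ℝ))⁻¹) ^ m) := by
        rw [← hsum1, ← hsum2, sum_mul_sum, mul_sum]
        apply sum_congr rfl
        intro k _
        rw [mul_sum]
    _ ≤ C ^ ((m + 1) * g) * (((N : ℝ) ^ (1 - τ) * (1 + Real.log N)) ^ g *
          (1 + Real.log N) ^ m) := by
        apply mul_le_mul_of_nonneg_left _ (by positivity)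
        apply mul_le_mul (pow_le_pow_left₀ hs0 hb1 g) (pow_le_pow_left₀ hs1 hb2 m)
          (by positivity)
        have : 0 ≤ (N : ℝ) ^ (1 - τ) * (1 + Real.log N) := by positivity
        positivity
    _ = _ := by
        rw [mul_pow, ← Real.rpow_natCast ((N : ℝ) ^ (1 - τ)) g, ← Real.rpow_mul hN'.le]
        have e : (1 - τ) * (g : ℝ) = (g + m : ℝ) - (m + 1) * g * γ := by
          rw [hτdef]; field_simp; ring
        rw [e, pow_add]
        ring

end Pool.Agent.X186.CHG
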