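import Mathlib
import Pool.Agent.X186.CHG.Weight

set_option autoImplicit false

/-! In a set without three-term progressions the translates of a set are disjoint. -/

namespace Pool.Agent.X186.CHG

open Finset

/-- a configuration whose sums are distinct and lie in `A` -/
def HasConf (A : Set ℤ) (m g : ℕ) : Prop :=
  ∃ (k : Fin g → ℕ) (x : Fin m → ℕ), (∀ j, 1 ≤ k j) ∧ (∀ i, 1 ≤ x i) ∧
    Function.Injective (fun ij : Fin (m + 1) × Fin g => sm k x ij.1 ij.2) ∧
    ∀ i j, ((sm k x i j : ℕ) : ℤ) ∈ A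

lemma reduce {A : Set ℤ} (hpos : ∀ y ∈ A, 1 ≤ y)
    (hap : ∀ a ∈ A, ∀ b ∈ A, ∀ c ∈ A, a + c = b + b → a = b) {m g : ℕ}
    (hA : ¬ HasConf A m g)
    (X : Finset ℤ) (hX : X.card = m + 1) (k : Fin g → ℤ) (hk : Function.Injective k) :
    ¬ (∀ i : Fin g, ∀ x ∈ X, x + k i ∈ A) := by
  intro h
  apply hA
  let e : Fin (m + 1) ↪o ℤ := X.orderEmbOfFin hX
  have he : ∀ i, e i ∈ X := fun i => X.orderEmbOfFin_mem hX i
  have hk0 : ∀ j, 1 ≤ e 0 + k j := fun j => hpos _ (h j _ (he 0))
  have hx0 : ∀ i : Fin m, 1 ≤ e i.succ - e 0 := by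
    intro i
    have : e 0 < e i.succ := e.strictMono (Fin.succ_pos i)
    omega
  have hval : ∀ i j, ((sm (fun j => (e 0 + k j).toNat) (fun i : Fin m => (e i.succ - e 0).toNat)
      i j : ℕ) : ℤ) = e i + k j := by
    intro i j
    refine Fin.cases ?_ (fun i => ?_) i
    · rw [sm_zero]
      have := hk0 j
      omega
    · rw [sm_succ]
      have h1 := hk0 j
      have h2 := hx0 i
      push_cast
      omega
  refine ⟨fun j => (e 0 + k j).toNat, fun i => (e i.succ - e 0).toNat, ?_, ?_, ?_, ?_⟩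
  · intro j
    have := hk0 j
    show 1 ≤ (e 0 + k j).toNat
    omega
  · intro i
    have := hx0 i
    show 1 ≤ (e i.succ - e 0).toNat
    omega
  · rintro ⟨i, j⟩ ⟨i', j'⟩ hij
    simp only at hij
    have hij2 : e i + k j = e i' + k j' := by
      rw [← hval i j, ← hval i' j', hij]
    by_cases hj : j = j'
    · subst hj
      have : e i = e i' := by omega
      rw [e.injective this]
    · exfalso
      have h3 := hap (e i + k j') (h j' _ (he i)) (e i + k j) (h j _ (he i)) (e i' + k j)
        (h j _ (he i')) (by omega)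
      apply hj
      apply hk
      omega
  · intro i j
    rw [hval]
    exact h j _ (he i)

end Pool.Agent.X186.CHG
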