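import Mathlib

set_option autoImplicit false

/-! Random selectors: one point is chosen in each cell. A first moment argument with deletion. -/

namespace Pool.Agent.X186.CHG

open Finset

section sel

variable {I : Type} [Fintype I] [DecidableEq I] (q : I → ℕ)

/-- the number of the selectors through all points of `C` -/
lemma card_sel (hq : ∀ i, 0 < q i) (C : Finset (Σ i, Fin (q i))) :
    ((univ.filter fun s : (∀ i, Fin (q i)) => ∀ x ∈ C, s x.1 = x.2).card : ℝ) ≤
      (∏ i, (q i : ℝ)) * ∏ x ∈ C, (1 / (q x.1 : ℝ)) := by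
  classical
  by_cases h : ∃ s0 : (∀ i, Fin (q i)), ∀ x ∈ C, s0 x.1 = x.2
  · obtain ⟨s0, hs0⟩ := h
    have hinj : ∀ x ∈ C, ∀ y ∈ C, x.1 = y.1 → x = y := by
      rintro ⟨i, a⟩ hx ⟨i', b⟩ hy hxy
      simp only at hxy
      subst hxy
      have h1 := hs0 _ hx
      have h2 := hs0 _ hy
      simp only at h1 h2
      rw [← h1, ← h2]
    have hset : (univ.filter fun s : (∀ i, Fin (q i)) => ∀ x ∈ C, s x.1 = x.2)
        = Fintype.piFinset (fun i => if i ∈ C.image Sigma.fst then {s0 i} else univ) := by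
      ext s
      simp only [mem_filter, mem_univ, true_and, Fintype.mem_piFinset]
      constructor
      · intro hs i
        split_ifs with hi
        · rw [mem_image] at hi
          obtain ⟨x, hx, rfl⟩ := hi
          rw [mem_singleton, hs x hx, hs0 x hx]
        · exact mem_univ _
      · intro hs x hx
        have hx1 : x.1 ∈ C.image Sigma.fst := mem_image_of_mem _ hx
        have := hs x.1
        rw [if_pos hx1, mem_singleton] at this
        rw [this, hs0 x hx]
    rw [hset, Fintype.card_piFinset]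
    have h1 : ∏ x ∈ C, (1 / (q x.1 : ℝ)) = ∏ i ∈ C.image Sigma.fst, (1 / (q i : ℝ)) := by
      rw [prod_image]
      intro x hx y hy hxy
      exact hinj x hx y hy hxy
    rw [h1]
    have h2 : ∏ i ∈ C.image Sigma.fst, (1 / (q i : ℝ))
        = ∏ i, (if i ∈ C.image Sigma.fst then (1 / (q i : ℝ)) else 1) := by
      rw [prod_ite_mem, univ_inter]
    rw [h2, ← prod_mul_distrib]
    push_cast
    apply le_of_eq
    apply prod_congr rfl
    intro i _
    split_ifs with hi
    · have : (q i : ℝ) ≠ 0 := by exact_mod_cast (hq i).ne'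
      rw [card_singleton]
      field_simp
      simp
    · simp
  · have : (univ.filter fun s : (∀ i, Fin (q i)) => ∀ x ∈ C, s x.1 = x.2) = ∅ := by
      rw [filter_eq_empty_iff]
      intro s _ hs
      exact h ⟨s, hs⟩
    rw [this, card_empty, Nat.cast_zero]
    positivity

lemma exists_sel (hq : ∀ i, 0 < q i) {γ : Type} (Cs : Finset γ)
    (P : γ → Finset (Σ i, Fin (q i))) (w : γ → ℝ) (hw : ∀ c, 0 ≤ w c)
    (h : ∑ c ∈ Cs, w c * ∏ x ∈ P c, (1 / (q x.1 : ℝ)) < 1) :
    ∃ s : (∀ i, Fin (q i)), ∑ c ∈ Cs.filter (fun c => ∀ x ∈ P c, s x.1 = x.2), w c < 1 := by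
  classical
  by_contra hcon
  push Not at hcon
  have hpos : (0 : ℝ) < ∏ i, (q i : ℝ) := prod_pos fun i _ => by exact_mod_cast hq i
  have h1 : (∏ i, (q i : ℝ)) ≤ ∑ s : (∀ i, Fin (q i)),
      ∑ c ∈ Cs.filter (fun c => ∀ x ∈ P c, s x.1 = x.2), w c := by
    calc (∏ i, (q i : ℝ)) = ∑ s : (∀ i, Fin (q i)), (1 : ℝ) := by
          rw [sum_const, card_univ, Fintype.card_pi]
          simp
      _ ≤ _ := sum_le_sum fun s _ => hcon s
  have h2 : ∑ s : (∀ i, Fin (q i)), ∑ c ∈ Cs.filter (fun c => ∀ x ∈ P c, s x.1 = x.2), w c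
      = ∑ c ∈ Cs, w c *
        ((univ.filter fun s : (∀ i, Fin (q i)) => ∀ x ∈ P c, s x.1 = x.2).card : ℝ) := by
    simp_rw [sum_filter]
    rw [sum_comm]
    apply sum_congr rfl
    intro c _
    rw [← sum_filter, sum_const, nsmul_eq_mul, mul_comm]
  have h3 : ∑ c ∈ Cs, w c *
        ((univ.filter fun s : (∀ i, Fin (q i)) => ∀ x ∈ P c, s x.1 = x.2).card : ℝ)
      ≤ ∑ c ∈ Cs, (∏ i, (q i : ℝ)) * (w c * ∏ x ∈ P c, (1 / (q x.1 : ℝ))) := by
    apply sum_le_sum
    intro c _
    calc _ ≤ w c * ((∏ i, (q i : ℝ)) * ∏ x ∈ P c, (1 / (q x.1 : ℝ))) :=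
          mul_le_mul_of_nonneg_left (card_sel q hq (P c)) (hw c)
      _ = _ := by ring
  rw [← mul_sum] at h3
  have h4 := mul_lt_mul_of_pos_left h hpos
  rw [mul_one] at h4
  linarith

end sel

/-- Deletion. Blocks `j < n`; the block `j` has `L j` cells of `q j` points each; `φ` places the
points injectively in `ℤ`; `S c` (`c ∈ Cs`) are the forbidden sets, `top c ∈ S c`. -/
lemma deletion {n : ℕ} (L q : Fin n → ℕ) (hL : ∀ j, 0 < L j) (hq : ∀ j, 0 < q j)
    (φ : (Σ i : (Σ j : Fin n, Fin (L j)), Fin (q i.1)) → ℤ) (hφ : Function.Injective φ)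
    (p : ℤ → ℝ) (hp0 : ∀ y, (∀ x, φ x ≠ y) → p y = 0) (hp1 : ∀ x, p (φ x) = 1 / (q x.1.1 : ℝ))
    {γ : Type} (Cs : Finset γ) (S : γ → Finset ℤ) (top : γ → ℤ) (htop : ∀ c, top c ∈ S c)
    (blk : ℤ → Fin n) (hblk : ∀ x, blk (φ x) = x.1.1)
    (h : ∑ c ∈ Cs, (2 / (L (blk (top c)) : ℝ)) * ∏ y ∈ S c, p y < 1) :
    ∃ A : Finset ℤ, (∀ y ∈ A, ∃ x, φ x = y) ∧
      (∀ j, (L j : ℝ) / 2 ≤ ((A.filter fun y => blk y = j).card : ℝ)) ∧
      ∀ c ∈ Cs, ¬ S c ⊆ A := by
  classical
  have hp : ∀ y, 0 ≤ p y := by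
    intro y
    by_cases hy : ∃ x, φ x = y
    · obtain ⟨x, rfl⟩ := hy
      rw [hp1]; positivity
    · push Not at hy
      rw [hp0 y hy]
  let Q : (Σ j : Fin n, Fin (L j)) → ℕ := fun i => q i.1
  let Cs' := Cs.filter fun c => ∀ y ∈ S c, ∃ x, φ x = y
  let P : γ → Finset (Σ i, Fin (Q i)) := fun c => univ.filter fun x => φ x ∈ S c
  have hPprod : ∀ c ∈ Cs', ∏ x ∈ P c, (1 / (Q x.1 : ℝ)) = ∏ y ∈ S c, p y := by
    intro c hc
    have hc2 := (mem_filter.1 hc).2
    have himg : S c = (P c).image φ := by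
      ext y
      simp only [P, mem_image, mem_filter, mem_univ, true_and]
      constructor
      · intro hy
        obtain ⟨x, rfl⟩ := hc2 y hy
        exact ⟨x, hy, rfl⟩
      · rintro ⟨x, hx, rfl⟩
        exact hx
    rw [himg, prod_image (fun x _ y _ hxy => hφ hxy)]
    exact prod_congr rfl fun x _ => (hp1 x).symm
  have hsum : ∑ c ∈ Cs', (2 / (L (blk (top c)) : ℝ)) * ∏ x ∈ P c, (1 / (Q x.1 : ℝ)) < 1 := by
    refine lt_of_le_of_lt ?_ h
    calc _ = ∑ c ∈ Cs', (2 / (L (blk (top c)) : ℝ)) * ∏ y ∈ S c, p y :=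
          sum_congr rfl fun c hc => by rw [hPprod c hc]
      _ ≤ _ := sum_le_sum_of_subset_of_nonneg (filter_subset _ _) fun c _ _ =>
          mul_nonneg (by positivity) (prod_nonneg fun y _ => hp y)
  obtain ⟨s, hs⟩ := exists_sel Q (fun i => hq i.1) Cs' P
    (fun c => 2 / (L (blk (top c)) : ℝ)) (fun c => by positivity) hsum
  let R : Finset ℤ := univ.image fun i : (Σ j : Fin n, Fin (L j)) => φ ⟨i, s i⟩
  let D := Cs'.filter (fun c => ∀ x ∈ P c, s x.1 = x.2)
  let T := D.image top
  refine ⟨R \ T, ?_, ?_, ?_⟩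
  · intro y hy
    rw [mem_sdiff, mem_image] at hy
    obtain ⟨⟨i, _, rfl⟩, _⟩ := hy
    exact ⟨_, rfl⟩
  · intro j
    have h1 : (R.filter fun y => blk y = j).card = L j := by
      have : (R.filter fun y => blk y = j)
          = univ.image fun a : Fin (L j) => φ ⟨⟨j, a⟩, s ⟨j, a⟩⟩ := by
        ext y
        simp only [R, mem_filter, mem_image, mem_univ, true_and]
        constructor
        · rintro ⟨⟨⟨j', a⟩, rfl⟩, hj⟩
          rw [hblk] at hj
          simp only at hj
          subst hj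
          exact ⟨a, rfl⟩
        · rintro ⟨a, rfl⟩
          exact ⟨⟨⟨j, a⟩, rfl⟩, hblk _⟩
      rw [this, card_image_of_injective, card_univ, Fintype.card_fin]
      intro a b hab
      have := hφ hab
      have h' := congrArg Sigma.fst this
      simpa using h'
    have h2 : ((T.filter fun y => blk y = j).card : ℝ) < (L j : ℝ) / 2 := by
      have hle : (T.filter fun y => blk y = j).card ≤
          (D.filter fun c => blk (top c) = j).card := by
        have : (T.filter fun y => blk y = j) ⊆ (D.filter fun c => blk (top c) = j).image top := by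
          intro y hy
          rw [mem_filter, mem_image] at hy
          obtain ⟨⟨c, hc, rfl⟩, hj⟩ := hy
          exact mem_image_of_mem _ (mem_filter.2 ⟨hc, hj⟩)
        exact (card_le_card this).trans card_image_le
      have hlt : ((D.filter fun c => blk (top c) = j).card : ℝ) * (2 / (L j : ℝ)) < 1 := by
        refine lt_of_le_of_lt ?_ hs
        calc ((D.filter fun c => blk (top c) = j).card : ℝ) * (2 / (L j : ℝ))
            = ∑ c ∈ D.filter (fun c => blk (top c) = j), (2 / (L (blk (top c)) : ℝ)) := by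
              rw [← nsmul_eq_mul, ← sum_const]
              apply sum_congr rfl
              intro c hc
              rw [(mem_filter.1 hc).2]
          _ ≤ _ := sum_le_sum_of_subset_of_nonneg (filter_subset _ _) fun c _ _ => by positivity
      have hLj : (0 : ℝ) < L j := by exact_mod_cast hL j
      have hlt2 : ((D.filter fun c => blk (top c) = j).card : ℝ) < (L j : ℝ) / 2 := by
        rw [mul_div_assoc', div_lt_one hLj] at hlt
        linarith
      exact lt_of_le_of_lt (by exact_mod_cast hle) hlt2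
    have h3 : (R.filter fun y => blk y = j).card ≤
        ((R \ T).filter fun y => blk y = j).card + (T.filter fun y => blk y = j).card := by
      refine (card_le_card ?_).trans (card_union_le _ _)
      intro y hy
      rw [mem_filter] at hy
      rw [mem_union, mem_filter, mem_filter, mem_sdiff]
      by_cases hyT : y ∈ T
      · exact Or.inr ⟨hyT, hy.2⟩
      · exact Or.inl ⟨⟨hy.1, hyT⟩, hy.2⟩
    rw [h1] at h3
    have h3' : (L j : ℝ) ≤ (((R \ T).filter fun y => blk y = j).card : ℝ)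
        + ((T.filter fun y => blk y = j).card : ℝ) := by exact_mod_cast h3
    linarith
  · intro c hc hsub
    have hR : ∀ y ∈ S c, y ∈ R := fun y hy => (mem_sdiff.1 (hsub hy)).1
    have hc' : c ∈ Cs' := by
      refine mem_filter.2 ⟨hc, fun y hy => ?_⟩
      obtain ⟨i, _, hi⟩ := mem_image.1 (hR y hy)
      exact ⟨_, hi⟩
    have hcD : c ∈ D := by
      refine mem_filter.2 ⟨hc', fun x hx => ?_⟩
      have hx2 : φ x ∈ S c := (mem_filter.1 hx).2
      obtain ⟨i, _, hi⟩ := mem_image.1 (hR _ hx2)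
      have := hφ hi
      subst this
      rfl
    exact (mem_sdiff.1 (hsub (htop c))).2 (mem_image_of_mem top hcD)

end Pool.Agent.X186.CHG
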