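import Mathlib
import Pool.Agent.X186.CHG.Sel
import Pool.Agent.X186.CHG.Weight
import Pool.Agent.X186.CHG.Reduce
import Pool.Agent.X186.CHG.Blocks

set_option autoImplicit false

/-! Finitely many blocks. -/

namespace Pool.Agent.X186.CHG

open Finset

/-- the numerical hypotheses on the block parameters -/
structure Par (m g j0 : ℕ) (e l : ℕ → ℕ) (γ : ℕ → ℝ) : Prop where
  hj0 : 1 ≤ j0
  hel : ∀ J, j0 ≤ J → l J + e J = J ^ 2 - 5 * J
  hq : ∀ I J, j0 ≤ I → I ≤ J → (1 : ℝ) / ((2 ^ e I : ℕ) : ℝ) ≤ ((2 : ℝ) ^ (I ^ 2 : ℕ)) ^ (-γ J)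
  hγ1 : ∀ J, j0 ≤ J → 1 ≤ γ J * g
  hγ2 : ∀ J, j0 ≤ J → γ J ≤ 1
  hγ3 : ∀ J, j0 ≤ J → (m + 1) * γ J - m / g ≤ 1
  hE : ∀ J, j0 ≤ J → 2 / ((2 ^ l J : ℕ) : ℝ) * (3 ^ ((m + 1) * g) *
    (1 + Real.log ((3 * 2 ^ (J ^ 2) : ℕ) : ℝ)) ^ (m + g) *
    ((3 * 2 ^ (J ^ 2) : ℕ) : ℝ) ^ ((g + m : ℝ) - (m + 1) * g * γ J)) ≤ (1 / 2) ^ (J + 1)

lemma weight' {m g N N' : ℕ} (hg : 0 < g) (hN : 1 ≤ N) (hNN : N ≤ N') (γ C : ℝ) (hC : 0 ≤ C)
    (hγ : 1 ≤ γ * g) (hτ : (m + 1) * γ - m / g ≤ 1)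
    (p : ℤ → ℝ) (hp0 : ∀ y, 0 ≤ p y)
    (hp : ∀ y : ℕ, 1 ≤ y → y ≤ N → p y ≤ C * (y : ℝ) ^ (-γ)) :
    ∑ c ∈ Fintype.piFinset (fun _ : Fin g => Icc 1 N') ×ˢ
        Fintype.piFinset (fun _ : Fin m => Icc 1 N'),
        (if ∀ i j, sm c.1 c.2 i j ≤ N then ∏ i, ∏ j, p (sm c.1 c.2 i j) else 0)
      ≤ C ^ ((m + 1) * g) * (1 + Real.log N) ^ (m + g) *
        (N : ℝ) ^ ((g + m : ℝ) - (m + 1) * g * γ) := by
  refine le_trans (le_of_eq ?_) (weight hg hN γ C hC hγ hτ p hp0 hp)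
  rw [← sum_product' (f := fun k x => (if ∀ i j, sm k x i j ≤ N then
    ∏ i, ∏ j, p (sm k x i j) else 0))]
  symm
  apply sum_subset
  · apply product_subset_product
    · intro k hk
      rw [Fintype.mem_piFinset] at hk ⊢
      intro i
      have := mem_Icc.1 (hk i)
      exact mem_Icc.2 ⟨this.1, this.2.trans hNN⟩
    · intro k hk
      rw [Fintype.mem_piFinset] at hk ⊢
      intro i
      have := mem_Icc.1 (hk i)
      exact mem_Icc.2 ⟨this.1, this.2.trans hNN⟩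
  · rintro ⟨k, x⟩ h1 h2
    rw [mem_product, Fintype.mem_piFinset, Fintype.mem_piFinset] at h1
    apply if_neg
    intro hc
    apply h2
    rw [mem_product, Fintype.mem_piFinset, Fintype.mem_piFinset]
    refine ⟨fun j => mem_Icc.2 ⟨(mem_Icc.1 (h1.1 j)).1, ?_⟩, fun i => mem_Icc.2
      ⟨(mem_Icc.1 (h1.2 i)).1, ?_⟩⟩
    · have := hc 0 j
      rw [sm_zero] at this
      exact this
    · have := hc i.succ ⟨0, hg⟩
      rw [sm_succ] at this
      have h' : x i + k ⟨0, hg⟩ ≤ N := this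
      show x i ≤ N
      omega

lemma fin_exists {m g j0 : ℕ} (hg : 0 < g) {e l : ℕ → ℕ} {γ : ℕ → ℝ} (H : Par m g j0 e l γ)
    {B : ℕ → Finset ℤ} (hBc : ∀ j, (B j).card = 2 ^ (j ^ 2 - 5 * j))
    (hB : ∀ j, ∀ y ∈ B j, 2 * 2 ^ (j ^ 2) ≤ y ∧ y < 3 * 2 ^ (j ^ 2)) (n : ℕ) :
    ∃ A : Finset ℤ, (∀ y ∈ A, ∃ J, j0 ≤ J ∧ y ∈ B J) ∧
      (∀ J, j0 ≤ J → J < j0 + (n + 1) →
        ((2 ^ l J : ℕ) : ℝ) / 2 ≤ ((A.filter fun y => y ∈ B J).card : ℝ)) ∧
      ¬ HasConf (A : Set ℤ) m g := by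
  classical
  let L : Fin (n + 1) → ℕ := fun j => 2 ^ l (j0 + j)
  let q : Fin (n + 1) → ℕ := fun j => 2 ^ e (j0 + j)
  have hL : ∀ j, 0 < L j := fun j => by positivity
  have hq : ∀ j, 0 < q j := fun j => by positivity
  have hge : ∀ j : Fin (n + 1), 1 ≤ j0 + (j : ℕ) := fun j => by have := H.hj0; omega
  have hcard : ∀ j, Fintype.card (Fin (L j) × Fin (q j)) = Fintype.card (B (j0 + j)) := by
    intro j
    rw [Fintype.card_prod, Fintype.card_fin, Fintype.card_fin, Fintype.card_coe, hBc,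
      ← H.hel _ (by omega), pow_add]
  let E : ∀ j, (Fin (L j) × Fin (q j)) ≃ B (j0 + j) := fun j => Fintype.equivOfCardEq (hcard j)
  let φ : (Σ i : (Σ j : Fin (n + 1), Fin (L j)), Fin (q i.1)) → ℤ :=
    fun x => (E x.1.1 (x.1.2, x.2) : ℤ)
  have hφB : ∀ x, φ x ∈ B (j0 + x.1.1) := fun x => (E x.1.1 (x.1.2, x.2)).2
  have huniq : ∀ {i j : Fin (n + 1)} {y : ℤ}, y ∈ B (j0 + i) → y ∈ B (j0 + j) → i = j := by
    intro i j y h1 h2
    have := blocks_disj hB (hge i) (hge j) h1 h2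
    apply Fin.ext
    omega
  have hφ : Function.Injective φ := by
    rintro ⟨⟨j, a⟩, b⟩ ⟨⟨j', a'⟩, b'⟩ hxy
    have h1 := hφB ⟨⟨j, a⟩, b⟩
    have h2 := hφB ⟨⟨j', a'⟩, b'⟩
    rw [hxy] at h1
    have h3 : j = j' := huniq h1 h2
    subst h3
    have h4 : E j (a, b) = E j (a', b') := Subtype.ext hxy
    have h5 := (E j).injective h4
    rw [Prod.mk.injEq] at h5
    obtain ⟨rfl, rfl⟩ := h5
    rfl
  have hφsurj : ∀ (j : Fin (n + 1)) (y : ℤ), y ∈ B (j0 + j) → ∃ x, φ x = y := by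
    intro j y hy
    refine ⟨⟨⟨j, ((E j).symm ⟨y, hy⟩).1⟩, ((E j).symm ⟨y, hy⟩).2⟩, ?_⟩
    simp [φ]
  let p : ℤ → ℝ := fun y => ∑ j : Fin (n + 1), if y ∈ B (j0 + j) then 1 / (q j : ℝ) else 0
  have hpnn : ∀ y, 0 ≤ p y := fun y => sum_nonneg fun j _ => by split_ifs <;> positivity
  have hpB : ∀ (j : Fin (n + 1)) (y : ℤ), y ∈ B (j0 + j) → p y = 1 / (q j : ℝ) := by
    intro j y hy
    simp only [p]
    rw [sum_eq_single j]
    · rw [if_pos hy]
    · intro j' _ hj'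
      rw [if_neg]
      intro h'
      exact hj' (huniq h' hy)
    · intro h'
      exact absurd (mem_univ _) h'
  have hp0' : ∀ y, p y ≠ 0 → ∃ j : Fin (n + 1), y ∈ B (j0 + j) := by
    intro y hy
    by_contra hcon
    push Not at hcon
    apply hy
    simp only [p]
    apply sum_eq_zero
    intro j _
    rw [if_neg (hcon j)]
  have hp0 : ∀ y, (∀ x, φ x ≠ y) → p y = 0 := by
    intro y hy
    by_contra hcon
    obtain ⟨j, hj⟩ := hp0' y hcon
    obtain ⟨x, hx⟩ := hφsurj j y hj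
    exact hy x hx
  have hp1 : ∀ x, p (φ x) = 1 / (q x.1.1 : ℝ) := fun x => hpB _ _ (hφB x)
  let blk : ℤ → Fin (n + 1) := fun y =>
    if h : ∃ j : Fin (n + 1), y ∈ B (j0 + j) then h.choose else 0
  have hblkB : ∀ (j : Fin (n + 1)) (y : ℤ), y ∈ B (j0 + j) → blk y = j := by
    intro j y hy
    have h : ∃ j : Fin (n + 1), y ∈ B (j0 + j) := ⟨j, hy⟩
    simp only [blk]
    rw [dif_pos h]
    exact huniq h.choose_spec hy
  have hblk : ∀ x, blk (φ x) = x.1.1 := fun x => hblkB _ _ (hφB x)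
  let N' : ℕ := 3 * 2 ^ ((j0 + n) ^ 2)
  let PF := Fintype.piFinset (fun _ : Fin g => Icc 1 N') ×ˢ
        Fintype.piFinset (fun _ : Fin m => Icc 1 N')
  let Cs : Finset ((Fin g → ℕ) × (Fin m → ℕ)) := PF.filter fun c =>
    Function.Injective (fun ij : Fin (m + 1) × Fin g => sm c.1 c.2 ij.1 ij.2)
  let S : (Fin g → ℕ) × (Fin m → ℕ) → Finset ℤ := fun c =>
    univ.image fun ij : Fin (m + 1) × Fin g => ((sm c.1 c.2 ij.1 ij.2 : ℕ) : ℤ)
  have hSne : ∀ c, (S c).Nonempty := fun c =>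
    ⟨_, mem_image_of_mem _ (mem_univ ((0 : Fin (m + 1)), (⟨0, hg⟩ : Fin g)))⟩
  let top : (Fin g → ℕ) × (Fin m → ℕ) → ℤ := fun c => (S c).max' (hSne c)
  have htop : ∀ c, top c ∈ S c := fun c => max'_mem _ _
  have hSmem : ∀ c i j, ((sm c.1 c.2 i j : ℕ) : ℤ) ∈ S c := fun c i j =>
    mem_image_of_mem (fun ij : Fin (m + 1) × Fin g => ((sm c.1 c.2 ij.1 ij.2 : ℕ) : ℤ))
      (mem_univ (i, j))
  have hprod : ∀ c ∈ Cs, ∏ y ∈ S c, p y = ∏ i, ∏ j, p (sm c.1 c.2 i j) := by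
    intro c hc
    have hinj := (mem_filter.1 hc).2
    simp only [S]
    rw [prod_image, Fintype.prod_prod_type]
    intro a _ b _ hab
    apply hinj
    exact Nat.cast_injective (R := ℤ) hab
  let U : Fin (n + 1) → ℕ := fun j => 3 * 2 ^ ((j0 + j) ^ 2)
  have hterm : ∀ c ∈ Cs, (2 / (L (blk (top c)) : ℝ)) * ∏ y ∈ S c, p y ≤
      ∑ j : Fin (n + 1), (2 / (L j : ℝ)) *
        (if ∀ i i', sm c.1 c.2 i i' ≤ U j then ∏ i, ∏ i', p (sm c.1 c.2 i i') else 0) := by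
    intro c hc
    have hnn : ∀ j : Fin (n + 1), 0 ≤ (2 / (L j : ℝ)) *
        (if ∀ i i', sm c.1 c.2 i i' ≤ U j then ∏ i, ∏ i', p (sm c.1 c.2 i i') else 0) := by
      intro j
      apply mul_nonneg (by positivity)
      split_ifs
      · exact prod_nonneg fun i _ => prod_nonneg fun j _ => hpnn _
      · exact le_rfl
    by_cases h0 : ∏ y ∈ S c, p y = 0
    · rw [h0, mul_zero]
      exact sum_nonneg fun j _ => hnn j
    · have htp : p (top c) ≠ 0 := by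
        intro h
        exact h0 (prod_eq_zero (htop c) h)
      obtain ⟨j, hj⟩ := hp0' _ htp
      have hbj := hblkB j _ hj
      refine le_trans (le_of_eq ?_) (single_le_sum (fun j _ => hnn j) (mem_univ j))
      rw [hbj, if_pos, hprod c hc]
      intro i i'
      have h1 : ((sm c.1 c.2 i i' : ℕ) : ℤ) ≤ top c := le_max' _ _ (hSmem c i i')
      have h2 := (hB _ _ hj).2
      have h3 : ((sm c.1 c.2 i i' : ℕ) : ℤ) < ((3 * 2 ^ ((j0 + (j : ℕ)) ^ 2) : ℕ) : ℤ) := by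
        push_cast
        linarith
      exact (by exact_mod_cast h3 : sm c.1 c.2 i i' < 3 * 2 ^ ((j0 + (j : ℕ)) ^ 2)).le
  have hblock : ∀ j : Fin (n + 1), (2 / (L j : ℝ)) * ∑ c ∈ Cs,
        (if ∀ i i', sm c.1 c.2 i i' ≤ U j then ∏ i, ∏ i', p (sm c.1 c.2 i i') else 0)
        ≤ (1 / 2) ^ ((j : ℕ) + 2) := by
    intro j
    have hJ : j0 ≤ j0 + (j : ℕ) := by omega
    have hU1 : 1 ≤ U j := Nat.one_le_iff_ne_zero.2 (by positivity)
    have hUN : U j ≤ N' := by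
      simp only [U, N']
      apply Nat.mul_le_mul_left
      apply Nat.pow_le_pow_right (by norm_num)
      apply Nat.pow_le_pow_left
      have := j.2
      omega
    have hpb : ∀ y : ℕ, 1 ≤ y → y ≤ U j → p y ≤ 3 * (y : ℝ) ^ (-γ (j0 + j)) := by
      intro y hy1 hy2
      have hy0 : (0 : ℝ) < y := by exact_mod_cast hy1
      by_cases hpy : p y = 0
      · rw [hpy]; positivity
      · obtain ⟨i, hi⟩ := hp0' _ hpy
        rw [hpB i _ hi]
        have hbi := hB _ _ hi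
        have hij : j0 + (i : ℕ) ≤ j0 + (j : ℕ) := by
          by_contra hcon
          push Not at hcon
          have h8 := scale (hge j) hcon
          have hyU : (y : ℤ) ≤ 3 * 2 ^ ((j0 + (j : ℕ)) ^ 2) := by
            have : (y : ℤ) ≤ ((3 * 2 ^ ((j0 + (j : ℕ)) ^ 2) : ℕ) : ℤ) := by exact_mod_cast hy2
            push_cast at this
            exact this
          have hpos : (0 : ℤ) < 2 ^ ((j0 + (j : ℕ)) ^ 2) := by positivity
          linarith [hbi.1]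
        have hqi := H.hq (j0 + i) (j0 + j) (by omega) hij
        have hγnn : 0 ≤ γ (j0 + j) := by
          have h1 := H.hγ1 (j0 + j) hJ
          by_contra hcon
          push Not at hcon
          have hgr : (0 : ℝ) < g := by exact_mod_cast hg
          nlinarith
        have hγle := H.hγ2 (j0 + j) hJ
        have hyr : (y : ℝ) ≤ 3 * (2 : ℝ) ^ ((j0 + (i : ℕ)) ^ 2) := by
          have : (y : ℤ) < 3 * 2 ^ ((j0 + (i : ℕ)) ^ 2) := hbi.2
          have h' : ((y : ℤ) : ℝ) < ((3 * 2 ^ ((j0 + (i : ℕ)) ^ 2) : ℤ) : ℝ) := by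
            exact_mod_cast this
          push_cast at h'
          exact h'.le
        have h3 : (3 * (2 : ℝ) ^ ((j0 + (i : ℕ)) ^ 2)) ^ (-γ (j0 + j)) ≤
            (y : ℝ) ^ (-γ (j0 + j)) :=
          Real.rpow_le_rpow_of_nonpos hy0 hyr (by linarith)
        rw [Real.mul_rpow (by norm_num) (by positivity)] at h3
        have h4 : (1 : ℝ) ≤ 3 * (3 : ℝ) ^ (-γ (j0 + j)) := by
          rw [Real.rpow_neg (by norm_num), ← div_eq_mul_inv, one_le_div (by positivity)]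
          calc (3 : ℝ) ^ (γ (j0 + j)) ≤ (3 : ℝ) ^ (1 : ℝ) :=
                Real.rpow_le_rpow_of_exponent_le (by norm_num) hγle
            _ = 3 := Real.rpow_one 3
        have h5 : (0 : ℝ) ≤ ((2 : ℝ) ^ ((j0 + (i : ℕ)) ^ 2)) ^ (-γ (j0 + j)) := by positivity
        calc (1 : ℝ) / (q i : ℝ) ≤ ((2 : ℝ) ^ ((j0 + (i : ℕ)) ^ 2)) ^ (-γ (j0 + j)) := hqi
          _ = 1 * ((2 : ℝ) ^ ((j0 + (i : ℕ)) ^ 2)) ^ (-γ (j0 + j)) := (one_mul _).symm
          _ ≤ (3 * (3 : ℝ) ^ (-γ (j0 + j))) * ((2 : ℝ) ^ ((j0 + (i : ℕ)) ^ 2)) ^ (-γ (j0 + j)) :=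
              mul_le_mul_of_nonneg_right h4 h5
          _ = 3 * ((3 : ℝ) ^ (-γ (j0 + j)) *
                ((2 : ℝ) ^ ((j0 + (i : ℕ)) ^ 2)) ^ (-γ (j0 + j))) := by ring
          _ ≤ 3 * (y : ℝ) ^ (-γ (j0 + j)) := by linarith
    have hw := weight' (m := m) (N := U j) (N' := N') hg hU1 hUN (γ (j0 + j)) 3 (by norm_num)
      (H.hγ1 _ hJ) (H.hγ3 _ hJ) p hpnn hpb
    have hsub : ∑ c ∈ Cs,
        (if ∀ i i', sm c.1 c.2 i i' ≤ U j then ∏ i, ∏ i', p (sm c.1 c.2 i i') else 0)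
        ≤ ∑ c ∈ PF,
        (if ∀ i i', sm c.1 c.2 i i' ≤ U j then ∏ i, ∏ i', p (sm c.1 c.2 i i') else 0) := by
      apply sum_le_sum_of_subset_of_nonneg (filter_subset _ _)
      intro c _ _
      split_ifs
      · exact prod_nonneg fun i _ => prod_nonneg fun j _ => hpnn _
      · exact le_rfl
    have hE := H.hE (j0 + j) hJ
    have hLnn : (0 : ℝ) ≤ 2 / (L j : ℝ) := by positivity
    calc _ ≤ (2 / (L j : ℝ)) * _ := mul_le_mul_of_nonneg_left (hsub.trans hw) hLnn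
      _ ≤ (1 / 2) ^ (j0 + (j : ℕ) + 1) := hE
      _ ≤ (1 / 2) ^ ((j : ℕ) + 2) := by
          apply pow_le_pow_of_le_one (by norm_num) (by norm_num)
          have := H.hj0
          omega
  have hsum : ∑ c ∈ Cs, (2 / (L (blk (top c)) : ℝ)) * ∏ y ∈ S c, p y < 1 := by
    calc _ ≤ ∑ c ∈ Cs, ∑ j : Fin (n + 1), (2 / (L j : ℝ)) *
        (if ∀ i i', sm c.1 c.2 i i' ≤ U j then ∏ i, ∏ i', p (sm c.1 c.2 i i') else 0) :=
          sum_le_sum hterm
      _ = ∑ j : Fin (n + 1), (2 / (L j : ℝ)) * ∑ c ∈ Cs,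
        (if ∀ i i', sm c.1 c.2 i i' ≤ U j then ∏ i, ∏ i', p (sm c.1 c.2 i i') else 0) := by
          rw [sum_comm]
          apply sum_congr rfl
          intro j _
          rw [mul_sum]
      _ ≤ ∑ j : Fin (n + 1), (1 / 2 : ℝ) ^ ((j : ℕ) + 2) := sum_le_sum fun j _ => hblock j
      _ = (1 / 4) * ∑ j ∈ range (n + 1), (1 / 2 : ℝ) ^ j := by
          rw [Fin.sum_univ_eq_sum_range (fun j => (1 / 2 : ℝ) ^ (j + 2)), mul_sum]
          apply sum_congr rfl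
          intro j _
          rw [pow_add]
          norm_num
          ring
      _ < 1 := by
          have h := geom_sum_eq (x := (1 / 2 : ℝ)) (by norm_num) (n + 1)
          rw [h]
          have : (0 : ℝ) < (1 / 2) ^ (n + 1) := by positivity
          have e : (((1 : ℝ) / 2) ^ (n + 1) - 1) / (1 / 2 - 1) = 2 - 2 * (1 / 2) ^ (n + 1) := by
            field_simp
            ring
          rw [e]
          linarith
  obtain ⟨A, hA1, hA2, hA3⟩ := deletion L q hL hq φ hφ p hp0 hp1 Cs S top htop blk hblk hsum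
  refine ⟨A, ?_, ?_, ?_⟩
  · intro y hy
    obtain ⟨x, rfl⟩ := hA1 y hy
    exact ⟨j0 + x.1.1, by omega, hφB x⟩
  · intro J hJ1 hJ2
    have h1 := hA2 ⟨J - j0, by omega⟩
    have hJ3 : j0 + (J - j0) = J := by omega
    simp only [L, hJ3] at h1
    refine h1.trans ?_
    have : (A.filter fun y => blk y = ⟨J - j0, by omega⟩) ⊆ (A.filter fun y => y ∈ B J) := by
      intro y hy
      rw [mem_filter] at hy ⊢
      refine ⟨hy.1, ?_⟩
      obtain ⟨x, rfl⟩ := hA1 y hy.1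
      have h2 := hφB x
      have h3 := hy.2
      rw [hblk] at h3
      rw [h3] at h2
      simp only [hJ3] at h2
      exact h2
    exact_mod_cast card_le_card this
  · rintro ⟨k, x, hk, hx, hinj, hmem⟩
    have hNb : ∀ i j, sm k x i j ≤ N' := by
      intro i j
      obtain ⟨y, hy⟩ := hA1 _ (by exact_mod_cast hmem i j)
      have h2 := hB _ _ (hφB y)
      rw [hy] at h2
      have h3 : (2 : ℤ) ^ ((j0 + (y.1.1 : ℕ)) ^ 2) ≤ 2 ^ ((j0 + n) ^ 2) := by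
        apply pow_le_pow_right₀ (by norm_num)
        apply Nat.pow_le_pow_left
        have := y.1.1.2
        omega
      have h4 : ((sm k x i j : ℕ) : ℤ) ≤ ((3 * 2 ^ ((j0 + n) ^ 2) : ℕ) : ℤ) := by
        push_cast
        linarith [h2.2]
      exact_mod_cast h4
    have hc : (k, x) ∈ Cs := by
      refine mem_filter.2 ⟨mem_product.2 ⟨Fintype.mem_piFinset.2 fun j => mem_Icc.2 ⟨hk j, ?_⟩,
        Fintype.mem_piFinset.2 fun i => mem_Icc.2 ⟨hx i, ?_⟩⟩, hinj⟩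
      · have := hNb 0 j
        rw [sm_zero] at this
        exact this
      · have := hNb i.succ ⟨0, hg⟩
        rw [sm_succ] at this
        simp only
        omega
    apply hA3 _ hc
    intro y hy
    obtain ⟨⟨i, j⟩, _, rfl⟩ := mem_image.1 hy
    exact_mod_cast hmem i j

end Pool.Agent.X186.CHG
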