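import Mathlib
import Pool.Agent.X186.CHG.Fin

set_option autoImplicit false

/-! Compactness: infinitely many blocks. -/

namespace Pool.Agent.X186.CHG

open Finset Filter

lemma inf_exists {m g j0 : ℕ} (hg : 0 < g) {e l : ℕ → ℕ} {γ : ℕ → ℝ} (H : Par m g j0 e l γ)
    {B : ℕ → Finset ℤ} (hBc : ∀ j, (B j).card = 2 ^ (j ^ 2 - 5 * j))
    (hB : ∀ j, ∀ y ∈ B j, 2 * 2 ^ (j ^ 2) ≤ y ∧ y < 3 * 2 ^ (j ^ 2)) :
    ∃ A : Set ℤ, (∀ y ∈ A, ∃ J, j0 ≤ J ∧ y ∈ B J) ∧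
      (∀ J, j0 ≤ J → ((2 ^ l J : ℕ) : ℝ) / 2 ≤ ((A ∩ (B J : Set ℤ)).ncard : ℝ)) ∧
      ¬ HasConf A m g := by
  classical
  choose F hF1 hF2 hF3 using fin_exists hg H hBc hB
  let U : Ultrafilter ℕ := hyperfilter ℕ
  have hU : (U : Filter ℕ) ≤ atTop := Nat.hyperfilter_le_atTop
  refine ⟨{y | ∀ᶠ n in (U : Filter ℕ), y ∈ F n}, ?_, ?_, ?_⟩
  · intro y hy
    obtain ⟨n, hn⟩ := Filter.Eventually.exists (show ∀ᶠ n in (U : Filter ℕ), y ∈ F n from hy)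
    exact hF1 n y hn
  · intro J hJ
    have h1 : ∀ᶠ n in (U : Filter ℕ), J < j0 + (n + 1) :=
      hU (eventually_atTop.2 ⟨J, fun n hn => by omega⟩)
    have h2 : ∀ᶠ n in (U : Filter ℕ), ∀ y ∈ B J,
        (y ∈ F n ↔ y ∈ {y | ∀ᶠ n in (U : Filter ℕ), y ∈ F n}) := by
      rw [Filter.eventually_all_finset]
      intro y _
      by_cases hy : ∀ᶠ n in (U : Filter ℕ), y ∈ F n
      · filter_upwards [hy] with n hn
        exact ⟨fun _ => hy, fun _ => hn⟩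
      · have hy' : ∀ᶠ n in (U : Filter ℕ), ¬ y ∈ F n := Ultrafilter.eventually_not.2 hy
        filter_upwards [hy'] with n hn
        exact ⟨fun h => absurd h hn, fun h => absurd h hy⟩
    obtain ⟨n, hn1, hn2⟩ := (h1.and h2).exists
    refine (hF2 n J hJ hn1).trans (le_of_eq ?_)
    have : ({y | ∀ᶠ n in (U : Filter ℕ), y ∈ F n} ∩ (B J : Set ℤ))
        = (((F n).filter fun y => y ∈ B J : Finset ℤ) : Set ℤ) := by
      ext y
      simp only [Set.mem_inter_iff, Finset.mem_coe, Finset.mem_filter]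
      constructor
      · rintro ⟨h3, h4⟩
        exact ⟨(hn2 y h4).2 h3, h4⟩
      · rintro ⟨h3, h4⟩
        exact ⟨(hn2 y h4).1 h3, h4⟩
    rw [this, Set.ncard_coe_finset]
  · rintro ⟨k, x, hk, hx, hinj, hmem⟩
    have h1 : ∀ᶠ n in (U : Filter ℕ), ∀ i j, ((sm k x i j : ℕ) : ℤ) ∈ F n := by
      rw [Filter.eventually_all]
      intro i
      rw [Filter.eventually_all]
      intro j
      exact hmem i j
    obtain ⟨n, hn⟩ := h1.exists
    exact hF3 n ⟨k, x, hk, hx, hinj, fun i j => by exact_mod_cast hn i j⟩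

end Pool.Agent.X186.CHG
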