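import Mathlib
import Pool.Agent.X186.CHG.Fin

set_option autoImplicit false

/-! The choice of the parameters of the blocks. -/

namespace Pool.Agent.X186.CHG

open Filter

/-- the exponent -/
noncomputable def al (m g : ℕ) : ℝ := (m : ℝ) * (g - 1) / ((m + 1) * g - 1)

/-- the cell sizes are `2 ^ (γ J * J ^ 2)` -/
noncomputable def ga (m g : ℕ) (J : ℕ) : ℝ := 1 - al m g + 1 / √(J : ℝ)

noncomputable def ee (m g : ℕ) (J : ℕ) : ℕ := ⌈ga m g J * (J : ℝ) ^ 2⌉₊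

noncomputable def ll (m g : ℕ) (J : ℕ) : ℕ := J ^ 2 - 5 * J - ee m g J

variable {m g : ℕ}

lemma den_pos (hm : 1 ≤ m) (hg : 2 ≤ g) : (0 : ℝ) < (m + 1) * g - 1 := by
  have h1 : (1 : ℝ) ≤ m := by exact_mod_cast hm
  have h2 : (2 : ℝ) ≤ g := by exact_mod_cast hg
  nlinarith

lemma al_pos (hm : 1 ≤ m) (hg : 2 ≤ g) : 0 < al m g := by
  have h1 : (1 : ℝ) ≤ m := by exact_mod_cast hm
  have h2 : (2 : ℝ) ≤ g := by exact_mod_cast hg
  apply div_pos _ (den_pos hm hg)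
  nlinarith

lemma al_le (hm : 1 ≤ m) (hg : 2 ≤ g) : al m g ≤ 1 := by
  have h1 : (1 : ℝ) ≤ m := by exact_mod_cast hm
  have h2 : (2 : ℝ) ≤ g := by exact_mod_cast hg
  rw [al, div_le_one (den_pos hm hg)]
  nlinarith

/-- the identity `g + m - (m+1) g β = α`, `β = 1 - α` -/
lemma al_id (hm : 1 ≤ m) (hg : 2 ≤ g) :
    (g + m : ℝ) - (m + 1) * g * (1 - al m g) = al m g := by
  have h : ((m : ℝ) + 1) * g - 1 ≠ 0 := (den_pos hm hg).ne'
  rw [al, sub_eq_iff_eq_add, ← sub_eq_zero]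
  have e : (g : ℝ) + m - ((m : ℝ) * (g - 1) / ((m + 1) * g - 1) +
      (m + 1) * g * (1 - (m : ℝ) * (g - 1) / ((m + 1) * g - 1)))
      = (((g : ℝ) + m) * ((m + 1) * g - 1) - (m * (g - 1) +
      (m + 1) * g * (((m + 1) * g - 1) - m * (g - 1)))) / ((m + 1) * g - 1) := by
    rw [eq_div_iff h]
    have h2 : (m : ℝ) * (g - 1) / ((m + 1) * g - 1) * ((m + 1) * g - 1) = m * (g - 1) :=
      div_mul_cancel₀ _ h
    linear_combination (-1 + (m + 1) * g : ℝ) * h2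
  rw [e, div_eq_zero_iff]
  left
  ring

lemma mul_sqrt {J : ℕ} (hJ : 1 ≤ J) : 1 / √(J : ℝ) * (J : ℝ) ^ 2 = J * √(J : ℝ) := by
  have h0 : (0 : ℝ) < J := by exact_mod_cast hJ
  have h1 : 0 < √(J : ℝ) := Real.sqrt_pos.2 h0
  have h2 : √(J : ℝ) * √(J : ℝ) = J := Real.mul_self_sqrt h0.le
  field_simp
  nlinarith

lemma ga_mul {J : ℕ} (hJ : 1 ≤ J) :
    ga m g J * (J : ℝ) ^ 2 = (1 - al m g) * (J : ℝ) ^ 2 + J * √(J : ℝ) := by
  rw [ga, add_mul, mul_sqrt hJ]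

lemma ga_nonneg (hm : 1 ≤ m) (hg : 2 ≤ g) (J : ℕ) : 0 ≤ ga m g J := by
  have := al_le hm hg
  have h1 : 0 ≤ 1 / √(J : ℝ) := by positivity
  rw [ga]; linarith

/-- the facts about one large `J` -/
lemma big (hm : 1 ≤ m) (hg : 2 ≤ g) {J : ℕ} (hJ : 1 ≤ J) (h8 : 8 / al m g ≤ √(J : ℝ)) :
    ll m g J + ee m g J = J ^ 2 - 5 * J ∧ 1 ≤ ll m g J ∧
      al m g * (J : ℝ) ^ 2 - J * √(J : ℝ) - 5 * J - 1 ≤ (ll m g J : ℝ) := by
  have hα := al_pos hm hg
  have hα1 := al_le hm hg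
  have h0 : (1 : ℝ) ≤ J := by exact_mod_cast hJ
  have hs : √(J : ℝ) * √(J : ℝ) = J := Real.mul_self_sqrt (by linarith)
  have hs1 : 1 ≤ √(J : ℝ) := by
    rw [show (1 : ℝ) = √1 by simp]
    exact Real.sqrt_le_sqrt h0
  have h8' : 8 ≤ al m g * √(J : ℝ) := by
    rw [div_le_iff₀ hα] at h8; linarith
  set s := √(J : ℝ) with hsdef
  have hsq : al m g * (J : ℝ) ^ 2 ≥ 8 * (J * s) := by
    have e : al m g * (J : ℝ) ^ 2 = (al m g * s) * (J * s) := by
      calc al m g * (J : ℝ) ^ 2 = al m g * (J * J) := by ring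
        _ = al m g * (J * (s * s)) := by rw [hs]
        _ = _ := by ring
    rw [e]
    apply mul_le_mul_of_nonneg_right h8'
    positivity
  have hJs : (J : ℝ) ≤ J * s := by nlinarith
  have hceil : (ee m g J : ℝ) < ga m g J * (J : ℝ) ^ 2 + 1 :=
    Nat.ceil_lt_add_one (mul_nonneg (ga_nonneg hm hg J) (by positivity))
  rw [ga_mul hJ] at hceil
  have hle : (ee m g J : ℝ) + 1 ≤ (J : ℝ) ^ 2 - 5 * J := by nlinarith
  have h5 : 5 * J ≤ J ^ 2 := by
    have : (0 : ℝ) ≤ ee m g J := by positivity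
    have h' : ((5 * J : ℕ) : ℝ) ≤ ((J ^ 2 : ℕ) : ℝ) := by push_cast; linarith
    exact_mod_cast h'
  have hle2 : ee m g J + 1 ≤ J ^ 2 - 5 * J := by
    have : ((ee m g J + 1 : ℕ) : ℝ) ≤ ((J ^ 2 - 5 * J : ℕ) : ℝ) := by
      rw [Nat.cast_sub h5]; push_cast; linarith
    exact_mod_cast this
  refine ⟨?_, ?_, ?_⟩
  · rw [ll]; omega
  · rw [ll]; omega
  · rw [ll, Nat.cast_sub (by omega), Nat.cast_sub h5]
    push_cast
    rw [← hsdef] at hceil
    nlinarith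

lemma ev_sqrt (c : ℝ) : ∀ᶠ J : ℕ in atTop, c ≤ √(J : ℝ) :=
  (Real.tendsto_sqrt_atTop.comp tendsto_natCast_atTop_atTop).eventually_ge_atTop c

lemma ev_pow (M : ℕ) : ∀ᶠ J : ℕ in atTop, (4 * (J : ℝ) ^ 2) ^ M ≤ 2 ^ J := by
  have h := tendsto_pow_const_div_const_pow_of_one_lt (2 * M) (r := (2 : ℝ)) (by norm_num)
  have h1 : ∀ᶠ J : ℕ in atTop, (J : ℝ) ^ (2 * M) / 2 ^ J < 1 / 4 ^ M :=
    h.eventually (gt_mem_nhds (by positivity))
  filter_upwards [h1] with J hJ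
  rw [div_lt_div_iff₀ (by positivity) (by positivity)] at hJ
  calc (4 * (J : ℝ) ^ 2) ^ M = (J : ℝ) ^ (2 * M) * 4 ^ M := by
        rw [mul_pow, ← pow_mul]; ring
    _ ≤ 1 * 2 ^ J := hJ.le
    _ = 2 ^ J := one_mul _

lemma ev_const (c : ℝ) : ∀ᶠ J : ℕ in atTop, c ≤ (2 : ℝ) ^ J :=
  (tendsto_pow_atTop_atTop_of_one_lt (by norm_num : (1 : ℝ) < 2)).eventually_ge_atTop c

lemma par_exists (hm : 1 ≤ m) (hg : 2 ≤ g) :
    ∃ j0, Par m g j0 (ee m g) (ll m g) (ga m g) := by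
  have hα := al_pos hm hg
  have hα1 := al_le hm hg
  have hg0 : (0 : ℝ) < g := by
    have : (2 : ℝ) ≤ g := by exact_mod_cast hg
    linarith
  have hev := (ev_sqrt (8 / al m g)).and ((ev_sqrt (((m + 1) * g : ℝ) / al m g)).and
    ((ev_sqrt 4).and ((ev_pow (m + g)).and ((ev_const (6 * 3 ^ ((m + 1) * g))).and
      (eventually_ge_atTop 1)))))
  obtain ⟨j0, hj0⟩ := eventually_atTop.1 hev
  refine ⟨max j0 1, ⟨le_max_right _ _, ?_, ?_, ?_, ?_, ?_, ?_⟩⟩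
  · intro J hJ
    obtain ⟨h8, _, _, _, _, h1⟩ := hj0 J ((le_max_left _ _).trans hJ)
    exact (big hm hg h1 h8).1
  · intro I J hI hIJ
    obtain ⟨h8, _, _, _, _, h1⟩ := hj0 I ((le_max_left _ _).trans hI)
    have hγ : ga m g J ≤ ga m g I := by
      rw [ga, ga]
      have hI0 : (0 : ℝ) < I := by exact_mod_cast h1
      have : √(I : ℝ) ≤ √(J : ℝ) := Real.sqrt_le_sqrt (by exact_mod_cast hIJ)
      have := one_div_le_one_div_of_le (Real.sqrt_pos.2 hI0) this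
      linarith
    have hc : ga m g I * (I : ℝ) ^ 2 ≤ (ee m g I : ℝ) := Nat.le_ceil _
    have h2 : ((2 : ℝ) ^ (I ^ 2 : ℕ)) ^ (-ga m g J) = (2 : ℝ) ^ (-(ga m g J * (I : ℝ) ^ 2)) := by
      rw [← Real.rpow_natCast, ← Real.rpow_mul (by norm_num)]
      congr 1
      push_cast
      ring
    rw [h2]
    have h3 : (1 : ℝ) / ((2 ^ ee m g I : ℕ) : ℝ) = (2 : ℝ) ^ (-(ee m g I : ℝ)) := by
      rw [Real.rpow_neg (by norm_num), Real.rpow_natCast]
      push_cast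
      rw [one_div]
    rw [h3]
    apply Real.rpow_le_rpow_of_exponent_le (by norm_num)
    have : ga m g J * (I : ℝ) ^ 2 ≤ ga m g I * (I : ℝ) ^ 2 :=
      mul_le_mul_of_nonneg_right hγ (by positivity)
    linarith
  · intro J hJ
    have h1 : 0 ≤ 1 / √(J : ℝ) := by positivity
    have h2 : 1 ≤ (1 - al m g) * g := by
      have h3 : (2 : ℝ) ≤ g := by exact_mod_cast hg
      have hd := den_pos hm hg
      rw [al]
      rw [one_sub_div hd.ne', div_mul_eq_mul_div, one_le_div hd]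
      nlinarith [sq_nonneg ((g : ℝ) - 1)]
    rw [ga]
    nlinarith
  · intro J hJ
    obtain ⟨h8, _, _, _, _, h1⟩ := hj0 J ((le_max_left _ _).trans hJ)
    have h1' : (0 : ℝ) < J := by exact_mod_cast h1
    have hs := Real.sqrt_pos.2 h1'
    rw [ga]
    have : 1 / √(J : ℝ) ≤ al m g := by
      rw [div_le_iff₀ hα] at h8
      rw [div_le_iff₀ hs]
      linarith
    linarith
  · intro J hJ
    obtain ⟨_, ha, _, _, _, h1⟩ := hj0 J ((le_max_left _ _).trans hJ)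
    have h1' : (0 : ℝ) < J := by exact_mod_cast h1
    have hs := Real.sqrt_pos.2 h1'
    have hid := al_id hm hg
    have h2 : ((m + 1) * g : ℝ) * (1 / √(J : ℝ)) ≤ al m g := by
      rw [div_le_iff₀ hα] at ha
      rw [mul_one_div, div_le_iff₀ hs]
      linarith
    have e : ((m : ℝ) + 1) * ga m g J - m / g = (((m + 1) * g : ℝ) * ga m g J - m) / g := by
      field_simp
    rw [e, div_le_one hg0, ga]
    nlinarith
  · intro J hJ
    obtain ⟨h8, ha, h4, hp, hc, h1⟩ := hj0 J ((le_max_left _ _).trans hJ)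
    obtain ⟨_, _, hl⟩ := big hm hg h1 h8
    have h1' : (1 : ℝ) ≤ J := by exact_mod_cast h1
    have h1'' : (0 : ℝ) < J := by linarith
    have hs := Real.sqrt_pos.2 h1''
    have hid := al_id hm hg
    have h2 : ((m + 1) * g : ℝ) * (1 / √(J : ℝ)) ≤ al m g := by
      rw [div_le_iff₀ hα] at ha
      rw [mul_one_div, div_le_iff₀ hs]
      linarith
    set κ : ℝ := (g + m : ℝ) - (m + 1) * g * ga m g J with hκ
    have hκ' : κ = al m g - ((m + 1) * g : ℝ) * (1 / √(J : ℝ)) := by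
      rw [hκ, ga]; nlinarith
    have hκ0 : 0 ≤ κ := by rw [hκ']; linarith
    have hnn : (0 : ℝ) ≤ ((m + 1) * g : ℝ) * (1 / √(J : ℝ)) := by positivity
    have hκ1 : κ ≤ 1 := by rw [hκ']; linarith
    have hκJ : κ * (J : ℝ) ^ 2 = al m g * (J : ℝ) ^ 2 - ((m + 1) * g : ℝ) * (J * √(J : ℝ)) := by
      rw [hκ', sub_mul, mul_assoc, mul_sqrt h1]
    -- the factor with the logarithm
    have hlog : 1 + Real.log ((3 * 2 ^ (J ^ 2) : ℕ) : ℝ) ≤ 4 * (J : ℝ) ^ 2 := by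
      push_cast
      rw [Real.log_mul (by norm_num) (by positivity), Real.log_pow]
      have h3 : Real.log 3 ≤ 2 := by
        rw [Real.log_le_iff_le_exp (by norm_num)]
        have := Real.add_one_le_exp (2 : ℝ)
        linarith
      have h22 : Real.log 2 ≤ 1 := by
        rw [Real.log_le_iff_le_exp (by norm_num)]
        have := Real.add_one_le_exp (1 : ℝ)
        linarith
      push_cast
      nlinarith
    have hlog0 : 0 ≤ 1 + Real.log ((3 * 2 ^ (J ^ 2) : ℕ) : ℝ) := by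
      have := Real.log_natCast_nonneg (3 * 2 ^ (J ^ 2))
      linarith
    have hA : (1 + Real.log ((3 * 2 ^ (J ^ 2) : ℕ) : ℝ)) ^ (m + g) ≤ 2 ^ J :=
      (pow_le_pow_left₀ hlog0 hlog _).trans hp
    have hB : ((3 * 2 ^ (J ^ 2) : ℕ) : ℝ) ^ κ ≤ 3 * (2 : ℝ) ^ (κ * (J : ℝ) ^ 2) := by
      push_cast
      rw [Real.mul_rpow (by norm_num) (by positivity)]
      have h5 : ((2 : ℝ) ^ (J ^ 2 : ℕ)) ^ κ = (2 : ℝ) ^ (κ * (J : ℝ) ^ 2) := by
        rw [← Real.rpow_natCast, ← Real.rpow_mul (by norm_num)]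
        congr 1
        push_cast
        ring
      rw [h5]
      apply mul_le_mul_of_nonneg_right _ (by positivity)
      calc (3 : ℝ) ^ κ ≤ (3 : ℝ) ^ (1 : ℝ) :=
            Real.rpow_le_rpow_of_exponent_le (by norm_num) hκ1
        _ = 3 := Real.rpow_one 3
    have hL : 2 / ((2 ^ ll m g J : ℕ) : ℝ) ≤
        2 * (2 : ℝ) ^ (-(al m g * (J : ℝ) ^ 2 - J * √(J : ℝ) - 5 * J - 1)) := by
      have h6 : 2 / ((2 ^ ll m g J : ℕ) : ℝ) = 2 * (2 : ℝ) ^ (-(ll m g J : ℝ)) := by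
        rw [Real.rpow_neg (by norm_num), Real.rpow_natCast]
        push_cast
        rw [div_eq_mul_inv]
      rw [h6]
      apply mul_le_mul_of_nonneg_left _ (by norm_num)
      apply Real.rpow_le_rpow_of_exponent_le (by norm_num)
      linarith
    have hmg : (4 : ℝ) ≤ (m + 1) * g := by
      have h7 : (1 : ℝ) ≤ m := by exact_mod_cast hm
      have h8 : (2 : ℝ) ≤ g := by exact_mod_cast hg
      nlinarith
    calc 2 / ((2 ^ ll m g J : ℕ) : ℝ) * (3 ^ ((m + 1) * g) *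
            (1 + Real.log ((3 * 2 ^ (J ^ 2) : ℕ) : ℝ)) ^ (m + g) *
            ((3 * 2 ^ (J ^ 2) : ℕ) : ℝ) ^ κ)
        ≤ (2 * (2 : ℝ) ^ (-(al m g * (J : ℝ) ^ 2 - J * √(J : ℝ) - 5 * J - 1))) *
          (3 ^ ((m + 1) * g) * 2 ^ J * (3 * (2 : ℝ) ^ (κ * (J : ℝ) ^ 2))) := by
          gcongr
      _ = (6 * 3 ^ ((m + 1) * g)) * 2 ^ J * ((2 : ℝ) ^ (-(al m g * (J : ℝ) ^ 2 -
            J * √(J : ℝ) - 5 * J - 1)) * (2 : ℝ) ^ (κ * (J : ℝ) ^ 2)) := by ring
      _ ≤ 2 ^ J * 2 ^ J * ((2 : ℝ) ^ (-(al m g * (J : ℝ) ^ 2 -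
            J * √(J : ℝ) - 5 * J - 1)) * (2 : ℝ) ^ (κ * (J : ℝ) ^ 2)) := by
          apply mul_le_mul_of_nonneg_right _ (by positivity)
          apply mul_le_mul_of_nonneg_right hc (by positivity)
      _ = (2 : ℝ) ^ ((J : ℝ) + J + (-(al m g * (J : ℝ) ^ 2 - J * √(J : ℝ) - 5 * J - 1)
            + κ * (J : ℝ) ^ 2)) := by
          rw [Real.rpow_add (by norm_num), Real.rpow_add (by norm_num),
            Real.rpow_add (by norm_num), Real.rpow_natCast]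
      _ ≤ (2 : ℝ) ^ (-((J : ℝ) + 1)) := by
          apply Real.rpow_le_rpow_of_exponent_le (by norm_num)
          rw [hκJ]
          have h9 : (4 : ℝ) * (J * √(J : ℝ)) ≤ ((m + 1) * g : ℝ) * (J * √(J : ℝ)) :=
            mul_le_mul_of_nonneg_right hmg (by positivity)
          have h10 : (4 : ℝ) * J ≤ J * √(J : ℝ) := by nlinarith
          nlinarith
      _ = (1 / 2) ^ (J + 1) := by
          rw [Real.rpow_neg (by norm_num), one_div, inv_pow]
          congr 1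
          rw [← Real.rpow_natCast]
          push_cast
          rfl

/-- growth -/
lemma growth (hm : 1 ≤ m) (hg : 2 ≤ g) {ε : ℝ} (hε : 0 < ε) :
    ∀ᶠ J : ℕ in atTop, ∀ n : ℕ, 1 ≤ n → n < 3 * 2 ^ ((J + 1) ^ 2) →
      (n : ℝ) ^ (al m g - ε) ≤ ((2 ^ ll m g J : ℕ) : ℝ) / 2 := by
  have hα := al_pos hm hg
  have hα1 := al_le hm hg
  filter_upwards [ev_sqrt (8 / al m g), ev_sqrt (13 / ε), eventually_ge_atTop 1]
    with J h8 h13 h1 n hn hnJ
  obtain ⟨_, hl1, hl⟩ := big hm hg h1 h8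
  have hn' : (1 : ℝ) ≤ n := by exact_mod_cast hn
  have h1' : (1 : ℝ) ≤ J := by exact_mod_cast h1
  have hs1 : 1 ≤ √(J : ℝ) := by
    rw [show (1 : ℝ) = √1 by simp]
    exact Real.sqrt_le_sqrt h1'
  have hs : √(J : ℝ) * √(J : ℝ) = J := Real.mul_self_sqrt (by linarith)
  have hpow : ((2 ^ ll m g J : ℕ) : ℝ) / 2 = (2 : ℝ) ^ ((ll m g J : ℝ) - 1) := by
    rw [Real.rpow_sub (by norm_num), Real.rpow_natCast, Real.rpow_one]
    push_cast
    rfl
  rw [hpow]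
  rcases lt_or_ge (al m g - ε) 0 with hE | hE
  · calc (n : ℝ) ^ (al m g - ε) ≤ 1 := Real.rpow_le_one_of_one_le_of_nonpos hn' hE.le
      _ = (2 : ℝ) ^ (0 : ℝ) := (Real.rpow_zero 2).symm
      _ ≤ _ := by
          apply Real.rpow_le_rpow_of_exponent_le (by norm_num)
          have : (1 : ℝ) ≤ (ll m g J : ℝ) := by exact_mod_cast hl1
          linarith
  · have hnb : (n : ℝ) ≤ (2 : ℝ) ^ ((J : ℝ) ^ 2 + 2 * J + 3) := by
      have h2 : (n : ℝ) ≤ ((3 * 2 ^ ((J + 1) ^ 2) : ℕ) : ℝ) := by exact_mod_cast hnJ.le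
      have h3 : ((3 * 2 ^ ((J + 1) ^ 2) : ℕ) : ℝ) ≤ (2 : ℝ) ^ (((J + 1) ^ 2 + 2 : ℕ) : ℝ) := by
        rw [Real.rpow_natCast, pow_add]
        push_cast
        have : (0 : ℝ) < 2 ^ ((J + 1) ^ 2) := by positivity
        linarith
      refine (h2.trans h3).trans (le_of_eq ?_)
      congr 1
      push_cast
      ring
    calc (n : ℝ) ^ (al m g - ε) ≤ ((2 : ℝ) ^ ((J : ℝ) ^ 2 + 2 * J + 3)) ^ (al m g - ε) :=
          Real.rpow_le_rpow (by positivity) hnb hE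
      _ = (2 : ℝ) ^ (((J : ℝ) ^ 2 + 2 * J + 3) * (al m g - ε)) := by
          rw [← Real.rpow_mul (by norm_num)]
      _ ≤ _ := by
          apply Real.rpow_le_rpow_of_exponent_le (by norm_num)
          have h13' : 13 ≤ ε * √(J : ℝ) := by
            rw [div_le_iff₀ hε] at h13; linarith
          have hJs : (J : ℝ) ≤ J * √(J : ℝ) := by nlinarith
          have hsq : 13 * (J * √(J : ℝ)) ≤ ε * (J : ℝ) ^ 2 := by
            have e : ε * (J : ℝ) ^ 2 = (ε * √(J : ℝ)) * (J * √(J : ℝ)) := by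
              calc ε * (J : ℝ) ^ 2 = ε * (J * J) := by ring
                _ = ε * (J * (√(J : ℝ) * √(J : ℝ))) := by rw [hs]
                _ = _ := by ring
            rw [e]
            exact mul_le_mul_of_nonneg_right h13' (by positivity)
          have h14 : (2 * (J : ℝ) + 3) * (al m g - ε) ≤ 2 * J + 3 := by
            have : al m g - ε ≤ 1 := by linarith
            nlinarith
          nlinarith

end Pool.Agent.X186.CHG
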