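import Mathlib
import Pool.Agent.X186.CHG.Inf
import Pool.Agent.X186.CHG.Param

set_option autoImplicit false

/-! Dense infinite `C_h[g]`-sequences. -/

namespace Pool.Agent.X186.CHG

open Filter

lemma find_scale {J1 n : ℕ} (hn : 3 * 2 ^ (J1 ^ 2) ≤ n) :
    ∃ J, J1 ≤ J ∧ 3 * 2 ^ (J ^ 2) ≤ n ∧ n < 3 * 2 ^ ((J + 1) ^ 2) := by
  classical
  have hex : ∃ J, n < 3 * 2 ^ ((J + 1) ^ 2) := by
    refine ⟨n, ?_⟩
    have h1 : n < 2 ^ n := Nat.lt_two_pow_self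
    have h2 : 2 ^ n ≤ 2 ^ ((n + 1) ^ 2) := Nat.pow_le_pow_right (by norm_num) (by nlinarith)
    omega
  have hspec := Nat.find_spec hex
  have hmin := fun J => Nat.find_min hex (m := J)
  generalize Nat.find hex = J at *
  have hJ : J1 ≤ J := by
    by_contra hcon
    push Not at hcon
    have : 3 * 2 ^ ((J + 1) ^ 2) ≤ 3 * 2 ^ (J1 ^ 2) := by
      apply Nat.mul_le_mul_left
      apply Nat.pow_le_pow_right (by norm_num)
      exact Nat.pow_le_pow_left (by omega) 2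
    omega
  refine ⟨J, hJ, ?_, hspec⟩
  rcases J with _ | J
  · have : J1 = 0 := by omega
    subst this
    exact hn
  · have := hmin J (Nat.lt_succ_self J)
    omega

theorem main (m g : ℕ) (hm : 1 ≤ m) (hg : 2 ≤ g) :
    ∃ A : Set ℤ, A ⊆ {n : ℤ | 1 ≤ n} ∧ A.Infinite ∧
      (∀ X : Finset ℤ, X.card = m + 1 → ∀ k : Fin g → ℤ, Function.Injective k →
          ¬ (∀ i : Fin g, ∀ x ∈ X, x + k i ∈ A)) ∧
        ∀ ε : ℝ, 0 < ε → ∀ᶠ n : ℕ in atTop,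
          (n : ℝ) ^ (al m g - ε) ≤ ((A ∩ Set.Icc (1 : ℤ) (n : ℤ)).ncard : ℝ) := by
  choose B hBc hB hf using exists_block
  obtain ⟨j0, H⟩ := par_exists hm hg
  obtain ⟨A, hA1, hA2, hA3⟩ := inf_exists (by omega : 0 < g) H hBc hB
  have hpos : ∀ y ∈ A, 1 ≤ y := by
    intro y hy
    obtain ⟨J, _, hJ⟩ := hA1 y hy
    have h1 := (hB J y hJ).1
    have h2 : (1 : ℤ) ≤ 2 ^ (J ^ 2) := one_le_pow₀ (by norm_num)
    linarith
  have hgrow : ∀ ε : ℝ, 0 < ε → ∀ᶠ n : ℕ in atTop,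
      (n : ℝ) ^ (al m g - ε) ≤ ((A ∩ Set.Icc (1 : ℤ) (n : ℤ)).ncard : ℝ) := by
    intro ε hε
    obtain ⟨J1, hJ1⟩ := eventually_atTop.1 ((growth hm hg hε).and (eventually_ge_atTop j0))
    filter_upwards [eventually_ge_atTop (3 * 2 ^ (J1 ^ 2))] with n hn
    obtain ⟨J, hJ, hn1, hn2⟩ := find_scale hn
    obtain ⟨h1, h2⟩ := hJ1 J hJ
    have hn0 : 1 ≤ n := by
      have : 1 ≤ 2 ^ (J ^ 2) := Nat.one_le_two_pow
      omega
    refine (h1 n hn0 hn2).trans ((hA2 J h2).trans ?_)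
    have hsub : (A ∩ (B J : Set ℤ)) ⊆ (A ∩ Set.Icc (1 : ℤ) (n : ℤ)) := by
      rintro y ⟨hy1, hy2⟩
      refine ⟨hy1, hpos y hy1, ?_⟩
      have h3 := (hB J y hy2).2
      have h4 : ((3 * 2 ^ (J ^ 2) : ℕ) : ℤ) ≤ (n : ℤ) := by exact_mod_cast hn1
      push_cast at h4
      linarith
    have hfin : (A ∩ Set.Icc (1 : ℤ) (n : ℤ)).Finite := (Set.finite_Icc _ _).inter_of_right A
    exact_mod_cast Set.ncard_le_ncard hsub hfin
  refine ⟨A, hpos, ?_, ?_, hgrow⟩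
  · intro hfin
    have hα := al_pos hm hg
    have h1 := hgrow (al m g / 2) (by linarith)
    have h2 : Tendsto (fun n : ℕ => (n : ℝ) ^ (al m g - al m g / 2)) atTop atTop :=
      (tendsto_rpow_atTop (by linarith)).comp tendsto_natCast_atTop_atTop
    obtain ⟨n, hn1, hn2⟩ := (h1.and (h2.eventually_gt_atTop (A.ncard : ℝ))).exists
    have h3 : (A ∩ Set.Icc (1 : ℤ) (n : ℤ)).ncard ≤ A.ncard :=
      Set.ncard_le_ncard Set.inter_subset_left hfin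
    have h4 : ((A ∩ Set.Icc (1 : ℤ) (n : ℤ)).ncard : ℝ) ≤ (A.ncard : ℝ) := by exact_mod_cast h3
    linarith
  · intro X hX k hk
    refine reduce hpos ?_ hA3 X hX k hk
    intro a ha b hb c hc h
    obtain ⟨i, hi, ha'⟩ := hA1 a ha
    obtain ⟨j, hj, hb'⟩ := hA1 b hb
    obtain ⟨l, hl, hc'⟩ := hA1 c hc
    have := H.hj0
    exact blocks_free hB hf (by omega) (by omega) (by omega) ha' hb' hc' h

end Pool.Agent.X186.CHG
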